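import Pool.Agent.W289.CG.Fin

/-!
# Number fields of degree `n` with large `m`-rank of the class group, for all `m`
-/

set_option autoImplicit false

namespace Pool.Agent.Results.MP_176ace_nt.LargeRank

open NumberField

/-- Let `n ≥ 3`, `κ = n - 1` if `n ≤ 10` or `n = 12` and `κ = 3` otherwise, and let `r` be `⌊n/2⌋`
or `0`.  For every `m ≥ 2` there are number fields of degree `n` with exactly `r` complex places and
of arbitrarily large discriminant whose class group contains `(ℤ/m)^(r+κ)`. -/
theorem result :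
    ∀ n κ r m : ℕ, 3 ≤ n → κ = (if n ≤ 10 ∨ n = 12 then n - 1 else 3) → (r = n / 2 ∨ r = 0) →
      2 ≤ m → ∀ N : ℕ,
      ∃ (K : Type) (_ : Field K) (_ : NumberField K), Module.finrank ℚ K = n ∧
        InfinitePlace.nrComplexPlaces K = r ∧ (N : ℤ) < |discr K| ∧
        ∃ f : Multiplicative (Fin (r + κ) → ZMod m) →* ClassGroup (𝓞 K),
          Function.Injective f := by
  intro n κ r m hn hκ hr hm N
  have hD : Nonempty (W289.CG.Dat n κ) := by
    rw [hκ]
    split_ifs with h
    · exact W21.CG.small n (by omega)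
    · exact W289.CG.dat3 n (by omega)
  have hκ1 : 1 ≤ κ := by
    rw [hκ]
    split_ifs with h <;> omega
  obtain ⟨⟨K, hK1, hK2, h1, h2, h3, h4⟩, ⟨K', hK1', hK2', h1', h2', h3', h4'⟩⟩ :=
    W289.CG.main n κ (by omega) hκ1 hD m N hm
  rcases hr with rfl | rfl
  · refine ⟨K, hK1, hK2, h1, ?_, h3, h4⟩
    have h8 := InfinitePlace.card_add_two_mul_card_eq_rank K
    omega
  · refine ⟨K', hK1', hK2', h1', ?_, h3', ?_⟩
    · have h8 := InfinitePlace.card_add_two_mul_card_eq_rank K'
      omega
    · rw [Nat.zero_add]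
      exact h4'

end Pool.Agent.Results.MP_176ace_nt.LargeRank
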